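import Pool.Agent.L7h80.RC.Stm

/-! [SP] and [DE] of project RC (helper80). -/

set_option autoImplicit false

namespace Pool.Agent.L7h45.RC

open MvPowerSeries Pool.Agent.L7h80.RC

theorem mem_span_X' {k : ℕ} (g : MvPowerSeries (Fin k) ℂ) (hg : constantCoeff g = 0) :
    ∃ q : Fin k → MvPowerSeries (Fin k) ℂ, g = ∑ i, X i * q i := by
  classical
  -- choice of an index for every nonzero exponent
  have hch : ∀ e : Fin k →₀ ℕ, e ≠ 0 → ∃ i, e i ≠ 0 := by
    intro e he
    by_contra hcon
    push Not at hcon
    exact he (Finsupp.ext hcon)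
  let c : (Fin k →₀ ℕ) → Option (Fin k) := fun e =>
    if he : e ≠ 0 then some (hch e he).choose else none
  have hc : ∀ e i, c e = some i → e i ≠ 0 := by
    intro e i h
    by_cases he : e ≠ 0
    · have h1 : c e = some (hch e he).choose := dif_pos he
      rw [h1] at h
      rw [← Option.some.inj h]
      exact (hch e he).choose_spec
    · have h1 : c e = none := dif_neg he
      rw [h1] at h
      exact absurd h (by simp)
  have hc' : ∀ e, e ≠ 0 → ∃ i, c e = some i := fun e he => ⟨_, dif_pos he⟩
  let q : Fin k → MvPowerSeries (Fin k) ℂ := fun i d =>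
    if c (d + Finsupp.single i 1) = some i then coeff (d + Finsupp.single i 1) g else 0
  have hq : ∀ i d, coeff d (q i) =
      if c (d + Finsupp.single i 1) = some i then coeff (d + Finsupp.single i 1) g else 0 :=
    fun i d => rfl
  refine ⟨q, ?_⟩
  ext e
  rw [map_sum]
  have hterm : ∀ i, coeff e (X i * q i) = if c e = some i then coeff e g else 0 := by
    intro i
    by_cases hi : e i = 0
    · have h1 : c e ≠ some i := fun h => hc e i h hi
      rw [if_neg h1, X, coeff_monomial_mul, if_neg]
      intro hle
      have := hle i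
      rw [Finsupp.single_eq_same, hi] at this
      omega
    · have hle : Finsupp.single i 1 ≤ e := by
        rw [Finsupp.single_le_iff]
        omega
      rw [X, coeff_monomial_mul, if_pos hle, one_mul, hq, tsub_add_cancel_of_le hle]
  rw [Finset.sum_congr rfl (fun i _ => hterm i)]
  by_cases he : e = 0
  · subst he
    have h0 : coeff (0 : Fin k →₀ ℕ) g = 0 := by
      rw [coeff_zero_eq_constantCoeff]; exact hg
    rw [h0]
    simp
  · obtain ⟨i, hi⟩ := hc' e he
    rw [Finset.sum_eq_single i]
    · rw [if_pos hi]
    · intro j _ hj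
      rw [if_neg]
      rw [hi]
      intro h
      exact hj (Option.some.inj h).symm
    · intro h
      exact absurd (Finset.mem_univ i) h

theorem s_SP : S_SP := by
  intro n f hf
  obtain ⟨q, hq⟩ := mem_span_X' f hf
  rw [hq]
  exact Ideal.sum_mem _ (fun i _ => Ideal.mul_mem_right _ _ (Ideal.subset_span ⟨i, rfl⟩))

/-- the coefficients of the products of `k` series without constant term vanish in degrees below `k` -/
theorem der_zero {n : ℕ} (δ : Derivation ℂ (PS n) (PS n)) (h : ∀ i, δ (X i) = 0) (k : ℕ) :
    ∀ (f : PS n) (e : Fin n →₀ ℕ), e.degree < k → coeff e (δ f) = 0 := by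
  induction k with
  | zero => intro f e he; exact absurd he (Nat.not_lt_zero _)
  | succ k ih =>
    intro f e he
    have h0 : constantCoeff (f - C (constantCoeff f)) = 0 := by
      rw [map_sub, constantCoeff_C, sub_self]
    obtain ⟨q, hq⟩ := mem_span_X' _ h0
    have hf : f = C (constantCoeff f) + ∑ i, X i * q i := by
      rw [← hq]; ring
    have hC : δ (C (constantCoeff f)) = 0 := by
      have : (C (constantCoeff f) : PS n) = algebraMap ℂ (PS n) (constantCoeff f) := by
        rw [MvPowerSeries.algebraMap_apply]
        rfl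
      rw [this]
      exact δ.map_algebraMap _
    have hd : δ f = ∑ i, X i * δ (q i) := by
      conv_lhs => rw [hf]
      rw [map_add, hC, zero_add, map_sum]
      refine Finset.sum_congr rfl (fun i _ => ?_)
      rw [δ.leibniz, h i, smul_zero, add_zero, smul_eq_mul]
    rw [hd, map_sum]
    refine Finset.sum_eq_zero (fun i _ => ?_)
    rw [X, coeff_monomial_mul]
    split_ifs with hle
    · rw [ih, mul_zero]
      have h1 : (e - Finsupp.single i 1).degree + (Finsupp.single i 1 : Fin n →₀ ℕ).degree = e.degree := by
        rw [← map_add, tsub_add_cancel_of_le hle]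
      rw [Finsupp.degree_single] at h1
      omega
    · rfl

theorem s_DE : S_DE := by
  intro n D f
  obtain ⟨δ, hδ⟩ : ∃ δ : Derivation ℂ (PS n) (PS n), δ = D - ∑ i, (D (X i)) • pderiv ℂ i := ⟨_, rfl⟩
  have hev : ∀ g, δ g = D g - ∑ i, D (X i) * pderiv ℂ i g := by
    intro g
    rw [hδ, Derivation.sub_apply]
    congr 1
    have : (∑ i, (D (X i)) • pderiv ℂ i : Derivation ℂ (PS n) (PS n)) g =
        ∑ i, ((D (X i)) • pderiv ℂ i) g := by
      classical
      induction (Finset.univ : Finset (Fin n)) using Finset.induction_on with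
      | empty => simp
      | insert a s ha ih => rw [Finset.sum_insert ha, Finset.sum_insert ha, Derivation.add_apply, ih]
    rw [this]
    rfl
  have h0 : ∀ j, δ (X j) = 0 := by
    intro j
    rw [hev, Finset.sum_eq_single j]
    · rw [pderiv_X_self, mul_one, sub_self]
    · intro i _ hi
      rw [pderiv_X_of_ne (Ne.symm hi), mul_zero]
    · intro h
      exact absurd (Finset.mem_univ j) h
  have h1 : δ f = 0 := by
    ext e
    rw [der_zero δ h0 (e.degree + 1) f e (Nat.lt_succ_self _)]
    simp
  rw [hev] at h1
  exact sub_eq_zero.1 h1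

end Pool.Agent.L7h45.RC
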