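import Pool.Agent.L7h80.RC.Stm

/-! [BR] and [EU] of project RC (helper80). -/

set_option autoImplicit false

namespace Pool.Agent.L7h45.RC

open MvPowerSeries Pool.Agent.L7h80.RC

/-- the family of the branch -/
noncomputable def fam {n : ℕ} (w : Fin n → ℕ) (c : Fin n → ℂ) : Fin n → MvPowerSeries Unit ℂ :=
  fun i => (PowerSeries.C (c i) * PowerSeries.X ^ w i : PowerSeries ℂ)

theorem hasSubst_fam {n : ℕ} (w : Fin n → ℕ) (hw : ∀ i, 0 < w i) (c : Fin n → ℂ) :
    HasSubst (fam w c) := by
  apply hasSubst_of_constantCoeff_zero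
  intro i
  have h : PowerSeries.constantCoeff (PowerSeries.C (c i) * PowerSeries.X ^ w i : PowerSeries ℂ) = 0 := by
    rw [map_mul, map_pow, PowerSeries.constantCoeff_X, zero_pow (hw i).ne', mul_zero]
  exact h

theorem onBranch_eq {n : ℕ} (w : Fin n → ℕ) (c : Fin n → ℂ) (f : PS n) :
    onBranch w c f = subst (fam w c) f := rfl

theorem s_BR : S_BR := by
  intro n w hw c
  have hs := hasSubst_fam w hw c
  refine ⟨?_, ?_, ?_, ?_⟩
  · intro f g
    rw [onBranch_eq, onBranch_eq, onBranch_eq, subst_add hs]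
  · intro f g
    rw [onBranch_eq, onBranch_eq, onBranch_eq, subst_mul hs]
  · intro a
    rw [onBranch_eq]
    exact subst_C a
  · intro i
    rw [onBranch_eq, subst_X hs]
    rfl

/-- the product of the powers of the family -/
theorem prod_fam {n : ℕ} (w : Fin n → ℕ) (c : Fin n → ℂ) (d : Fin n →₀ ℕ) :
    ((d.prod fun s e => (fam w c s) ^ e : MvPowerSeries Unit ℂ) : PowerSeries ℂ) =
      PowerSeries.C (∏ i, c i ^ d i) * PowerSeries.X ^ (∑ i, w i * d i) := by
  rw [Finsupp.prod_fintype _ _ (fun i => pow_zero _)]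
  have h : ∀ i, (fam w c i) ^ d i = (PowerSeries.C (c i ^ d i) * PowerSeries.X ^ (w i * d i) : PowerSeries ℂ) := by
    intro i
    show (PowerSeries.C (c i) * PowerSeries.X ^ w i : PowerSeries ℂ) ^ d i = _
    rw [mul_pow, ← map_pow, pow_mul]
  rw [Finset.prod_congr rfl (fun i _ => h i)]
  rw [map_prod, ← Finset.prod_pow_eq_pow_sum, ← Finset.prod_mul_distrib]

/-- the Euler field multiplies the coefficient of `d` with its weight -/
theorem coeff_euler {n : ℕ} (w : Fin n → ℕ) (f : PS n) (d : Fin n →₀ ℕ) :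
    coeff d (∑ i, (C (w i : ℂ) * X i) * pderiv ℂ i f) = ((∑ i, w i * d i : ℕ) : ℂ) * coeff d f := by
  rw [map_sum]
  push_cast
  rw [Finset.sum_mul]
  refine Finset.sum_congr rfl (fun i _ => ?_)
  rw [mul_assoc, coeff_C_mul, mul_assoc]
  congr 1
  rw [X, coeff_monomial_mul]
  split_ifs with hle
  · rw [one_mul, coeff_pderiv, tsub_add_cancel_of_le hle]
    have h1 := hle i
    rw [Finsupp.single_eq_same] at h1
    rw [Finsupp.tsub_apply, Finsupp.single_eq_same]
    push_cast [Nat.cast_sub h1]
    ring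
  · have : d i = 0 := by
      by_contra h
      exact hle (by rw [Finsupp.single_le_iff]; omega)
    rw [this]
    simp

theorem s_EU : S_EU := by
  intro n w hw c f hf
  have hs := hasSubst_fam w hw c
  rw [onBranch_eq] at hf ⊢
  ext k
  have h1 : ∀ g : PS n, coeff (Finsupp.single () k) (subst (fam w c) g) =
      finsum (fun d ↦ coeff d g • (coeff (Finsupp.single () k) (d.prod fun s e => (fam w c s) ^ e))) :=
    fun g => coeff_subst hs g _
  have h2 : PowerSeries.coeff k (subst (fam w c) (∑ i, (C (w i : ℂ) * X i) * pderiv ℂ i f) : PowerSeries ℂ) =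
      (k : ℂ) * PowerSeries.coeff k (subst (fam w c) f : PowerSeries ℂ) := by
    show coeff (Finsupp.single () k) _ = (k : ℂ) * coeff (Finsupp.single () k) _
    rw [h1, h1, ← smul_eq_mul, smul_finsum]
    refine finsum_congr (fun d => ?_)
    rw [coeff_euler]
    have h3 : coeff (Finsupp.single () k) (d.prod fun s e => (fam w c s) ^ e) =
        if k = ∑ i, w i * d i then ∏ i, c i ^ d i else 0 := by
      have h4 := congrArg (PowerSeries.coeff k) (prod_fam w c d)
      rw [PowerSeries.coeff_C_mul, PowerSeries.coeff_X_pow] at h4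
      have h5 : coeff (Finsupp.single () k) (d.prod fun s e => (fam w c s) ^ e) =
        (∏ i, c i ^ d i) * (if k = ∑ i, w i * d i then 1 else 0) := h4
      rw [h5]
      split_ifs <;> simp
    rw [h3]
    split_ifs with hk
    · rw [← hk]
      simp only [smul_eq_mul]
      ring
    · simp
  have h6 : (subst (fam w c) f : PowerSeries ℂ) = 0 := hf
  rw [h2, h6]
  simp

end Pool.Agent.L7h45.RC
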